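import Pool.Agent.TH762.NS.Main
import Pool.Agent.TH684.CX.ThmN

/-!
# The law of certified exclusion for `NP` and polynomial space
-/

set_option autoImplicit false

namespace Pool.Agent.TH762.NS

open Pool.Agent.NPC Pool.Agent.H579R2.Spt Pool.Agent.H251R5.PQ Pool.Agent.W901.AT
open Pool.Agent.W920.LN (Tb lk lk_poly isSome_poly upoly_bound)
open Pool.Agent.W920.NL (Tc Rd go go_poly valid valid_poly table_of_tot)
open Pool.Agent.TH684.EX
open Pool.Agent.TH684.CX
open Pool.Agent.W920.LS (Hard inPSPACE_lang Ln code code_sp hard_of_ps)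
open Pool.Agent.H623R2.PS (InPSPACE PSPACEHard)
open Pool.Agent.W901.NU (node_hard node_pspace cl_pspace nodeP)

/-- **Certified exclusion for a set hard for polynomial space puts polynomial space into `NP`.** -/
theorem inNP_of_nfeasible {A L : Set (List Bool)} (hA : PSPACEHard A) (hL : InP L)
    (h : NFeasible (Exclude L A)) {S : Set (List Bool)} (hS : InPSPACE S) : InNP S := by
  classical
  obtain ⟨V, hV, hVL⟩ := hL
  obtain ⟨Y, p, b, c, hY, h⟩ := h
  set c' := max b c with hc'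
  have hlam : Poly (fun q : ℕ × (ℕ × ℕ) => decide (V (bits q) = [true])) :=
    NPC.Poly.decide_eq ((PIso.poly_iff.2 hV).comp bits_poly) (NPC.Poly.const [true])
  set Y' : List (List Bool) × (List Bool × List Bool) → Option ℕ :=
    fun q => Y (pairBits q.2.1 q.2.2) with hY'
  have hY'p : Poly Y' := (poly_of_opt hY).comp (H622R2.poly_pairBits
    (NPC.Poly.fst (NPC.Poly.snd NPC.Poly.id)) (NPC.Poly.snd (NPC.Poly.snd NPC.Poly.id)))
  have hW := rdX_poly hY'p p b c'
  have hsnd : SndX A (fun q => decide (V (bits q) = [true])) b c'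
      (rdX Y' p b c') [] (fun _ => True) := rdX_snd fun n qs h1 h2 _ w l hw hl => by
    obtain ⟨h3, h4⟩ := (h n qs h1 h2).2 l ⟨w, hw, hl⟩
    refine ⟨h3.trans (pow_add_mono (le_max_right b c) n), fun h5 => h4 ?_⟩
    rw [h5]
    unfold vec
    refine List.map_congr_left fun i _ => ?_
    exact decide_eq_decide.2 (hVL _).symm
  obtain ⟨G, Ks, r, hG, hKs, hr, hG2⟩ := cands_S (hard_of_ps hA) hlam (le_max_left b c) hW hsnd
    (((0, [], [], []), (0, [])) : Ln) (0 : ℕ) code_sp
  obtain ⟨pK, hpK⟩ := hKs.sz_le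
  have htot : ∀ z : List Bool, ∃ w : List Bool, w.length ≤ p.eval z.length ∧
      (rdX Y' p b c' ([], (z, w))).isSome = true := fun z =>
    rdX_tot fun n qs hz h1 h2 => by
      subst hz
      obtain ⟨l, w, hw, hl⟩ := (h n qs h1 h2).1
      exact ⟨w, l, hw, hl⟩
  have hvd : Poly (fun q : Tb × List Bool => valid (rdX Y' p b c') ([], q.1) q.2) :=
    valid_poly hW (NPC.Poly.pair (NPC.Poly.const []) (NPC.Poly.fst NPC.Poly.id))
      (NPC.Poly.snd NPC.Poly.id)
  refine inNP_of_cands (vd := fun tb z => valid (rdX Y' p b c') ([], tb) z)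
    (rT := pK * (pK + Polynomial.C 4 * p.comp pK + 3) + 1) hG hKs hr hG2 hvd ?_ hS
  intro z Z hz
  obtain ⟨tb, h1, h2⟩ := table_of_tot (W := rdX Y' p b c') (p0 := p) (θ := [])
    (N := pK.eval Z) (fun z _ => htot z) (Ks z) (pK.eval Z)
    ((hpK z).trans (eval_mono pK hz)) le_rfl
  refine ⟨tb, ?_, h2⟩
  simpa only [Polynomial.eval_add, Polynomial.eval_mul, Polynomial.eval_C, Polynomial.eval_comp,
    Polynomial.eval_one, Polynomial.eval_ofNat] using h1

theorem compl_pspace {S : Set (List Bool)} (hS : InPSPACE S) : InPSPACE Sᶜ := cl_pspace.compl hS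

/-- **The law of certified exclusion for `NP = PSPACE`.** -/
theorem np_pspace_tfae : List.TFAE
    [∀ S : Set (List Bool), InPSPACE S → InNP S,
      ∃ A L : Set (List Bool), PSPACEHard A ∧ InP L ∧ NFeasible (Exclude L A),
      ∃ A : Set (List Bool), PSPACEHard A ∧ NFeasible (ExcludeCount A),
      ∃ A : Set (List Bool), PSPACEHard A ∧ NFeasible (NotOnly A),
      ∀ A : Set (List Bool), InPSPACE A → NFeasible (ExcludeCount A) ∧ NFeasible (NotOnly A),
      ∃ (A : Set (List Bool)) (k : ℕ), PSPACEHard A ∧ NPolynomialGate k A,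
      ∀ A : Set (List Bool), InPSPACE A → NPolynomialGate 1 A] := by
  tfae_have 1 → 5 := fun h A hA => ⟨nfeasible_count (h _ hA) (h _ (compl_pspace hA)),
    nfeasible_notOnly (h _ hA) (h _ (compl_pspace hA))⟩
  tfae_have 1 → 7 := fun h A hA => ngate_of_both (h _ hA) (h _ (compl_pspace hA))
  tfae_have 5 → 3 := fun h => ⟨_, node_hard, (h _ node_pspace).1⟩
  tfae_have 5 → 4 := fun h => ⟨_, node_hard, (h _ node_pspace).2⟩
  tfae_have 3 → 2 := fun ⟨A, hA, h⟩ => ⟨A, Lthr, hA, lthr_inP, h.mono exclude_of_count⟩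
  tfae_have 4 → 2 := fun ⟨A, hA, h⟩ => ⟨A, Lunit, hA, lunit_inP, h.mono exclude_of_notOnly⟩
  tfae_have 7 → 6 := fun h => ⟨_, 1, node_hard, h _ node_pspace⟩
  tfae_have 6 → 2 := fun ⟨A, k, hA, h⟩ => ⟨A, Lpar, hA, lpar_inP, nfeasible_of_gate h⟩
  tfae_have 2 → 1 := fun ⟨A, L, hA, hL, h⟩ S hS => inNP_of_nfeasible hA hL h hS
  tfae_finish

end Pool.Agent.TH762.NS
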