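import Pool.Agent.TH684.CX.LawN
import Pool.Agent.TH762.XC.Lev

/-!
# Certified exclusion for a set hard for polynomial space: the candidate lists
-/

set_option autoImplicit false

namespace Pool.Agent.TH762.NS

open Pool.Agent.NPC Pool.Agent.H579R2.Spt Pool.Agent.H251R5.PQ Pool.Agent.W901.AT
open Pool.Agent.W901.FH (hx hx_poly pow_polyc pow_upolyc)
open Pool.Agent.W920.LN (Tb lk lk_poly isSome_poly upoly_bound)
open Pool.Agent.W920.NL (Tc Rd go go_poly valid valid_poly)
open Pool.Agent.TH684.EX (Qu ses ses_poly)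
open Pool.Agent.TH684.CX
open Pool.Agent.TH762.XC (LabS labS_sp)
open Pool.Agent.W903.GP (Sp)
open Pool.Agent.W920.LS (Hard)

/-- **Candidate lists from exclusion with a table.** -/
theorem approx_S {A : Set (List Bool)} (hA : Hard A) {lam : ℕ × (ℕ × ℕ) → Bool}
    (hlam : Poly lam) {b c : ℕ} (hbc : b ≤ c) {W : Rd} (hW : Poly W)
    (hsnd : SndX A lam b c W [] (fun _ => True))
    {f0 : List Bool → List Bool} (hf0 : Sp f0) (pp : Polynomial ℕ)
    (hlen : ∀ x, (f0 x).length ≤ pp.eval x.length) :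
    ∃ (G : Tb × List Bool → List (List Bool)) (Ks : List Bool → List (List Bool))
      (r : Polynomial ℕ), Poly G ∧ Poly Ks ∧ (∀ q, (G q).length ≤ r.eval q.2.length) ∧
      ∀ tb x, (∀ z ∈ Ks x, valid W ([], tb) z = true) → f0 x ∈ G (tb, x) := by
  obtain ⟨f, hf, hfA⟩ := hA _ (labS_sp hlam hf0)
  have hq : Poly (fun q : Qu => f (bits q)) := (PIso.poly_iff.2 hf).comp bits_poly
  obtain ⟨p1, hp1⟩ := hq.sz_le
  obtain ⟨e1, he1⟩ := exists_pow_bound (p1.comp p3)
  have hme : UPoly (ME pp e1 c) := ME_poly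
  have hpe : UPoly (PE pp e1 c) := PE_poly
  have hne : UPoly (nE pp) := nE_poly
  set mm : List Bool → ℕ := fun x => (NE pp e1 c x) ^ b + b with hmm
  have hmm' : UPoly mm := (pow_upolyc NE_poly b).add (UPoly.const b)
  have hmle : ∀ x, mm x ≤ ME pp e1 c x := fun x => pow_add_mono hbc _
  obtain ⟨r, hr⟩ := upoly_bound ((hne.add (UPoly.const 1)).mul hpe)
  have f1 : Poly (fun q : Tb × List Bool => (([], q.1) : Tc)) :=
    NPC.Poly.pair (NPC.Poly.const []) (NPC.Poly.fst NPC.Poly.id)
  have f2 : Poly (fun q : Tb × List Bool => q.2) := NPC.Poly.snd NPC.Poly.id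
  refine ⟨fun q => alc (rdl W) (fun q => f (bits q)) (([], q.1) : Tc) (mm q.2) (PE pp e1 c q.2)
    (ME pp e1 c q.2 + 1) (nE pp q.2) q.2,
    fun x => (sesL (fun q => f (bits q)) pp e1 c (mm x) x).map bits, r, ?_, ?_, ?_, ?_⟩
  · exact alc_poly (rdl_poly hW) hq f1 (hmm'.comp f2) (hpe.comp f2) (fun a => PE_pos a.2)
      ((hme.comp f2).add (UPoly.const 1)).toPoly (hne.comp f2) f2
  · exact NPC.Poly.map (l := fun x => sesL (fun q => f (bits q)) pp e1 c (mm x) x)
      (F := fun _ y => bits y) (sesL_poly hq hmm' NPC.Poly.id)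
      (bits_poly.comp (NPC.Poly.snd NPC.Poly.id))
  · intro q
    exact (alc_length _ _ _ _ _ _ _ (PE_pos q.2) _).trans (hr q.2)
  · intro tb x hval
    refine alc_mem (A := A) (lam := lam) (hlen x) ?_ ?_
    · intro P F j s i
      rw [← hfA, bits_mem_lang]
      exact Iff.rfl
    · intro j hj s hs
      have hmem := mem_sesL (qf := fun q : Qu => f (bits q)) (b := c) (e1 := e1)
        (m := mm x) hj hs
      obtain ⟨h1, h2⟩ := of_mem_sesL hp1 he1 (hmle x) hmem
      set qs := ses (fun q : Qu => f (bits q)) (mm x) (PE pp e1 c x) (ME pp e1 c x + 1) x j s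
        with hqs
      have hk : bits qs ∈ (sesL (fun q => f (bits q)) pp e1 c (mm x) x).map bits :=
        List.mem_map.2 ⟨qs, hmem, rfl⟩
      obtain ⟨l, hl⟩ := Option.isSome_iff_exists.1 (hval _ hk)
      obtain ⟨h, rfl, h3, h4⟩ := hsnd (NE pp e1 c x) qs h1 h2 trivial _ l hl
      have h5 : rdl W (qs, (([], tb) : Tc)) = h.length := by
        unfold rdl
        rw [hl]
        rfl
      rw [h5]
      rw [h1] at h4
      exact ⟨h3, h4⟩

/-- **Candidate lists for functions on data.** -/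
theorem cands_S {A : Set (List Bool)} (hA : Hard A) {lam : ℕ × (ℕ × ℕ) → Bool}
    (hlam : Poly lam) {b c : ℕ} (hbc : b ≤ c) {W : Rd} (hW : Poly W)
    (hsnd : SndX A lam b c W [] (fun _ => True))
    {α β : Type} [TEnc α] [TDec α] [TEnc β] [TDec β] (a0 : α) (b0 : β) {F : α → β} (hF : Sp F) :
    ∃ (G : Tb × α → List β) (Ks : α → List (List Bool)) (r : Polynomial ℕ), Poly G ∧
      Poly Ks ∧ (∀ q, (G q).length ≤ r.eval (sz q.2)) ∧
      ∀ tb a, (∀ z ∈ Ks a, valid W ([], tb) z = true) → F a ∈ G (tb, a) := by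
  have h1 : NPC.Poly (fun z : List Bool => (unbits α z).getD a0) :=
    NPC.Poly.optGetD poly_unbits (NPC.Poly.const a0)
  have h2 : Sp (fun z : List Bool => bits (F ((unbits α z).getD a0))) :=
    (hF.comp (Sp.of_poly h1)).post bits_poly
  obtain ⟨p, hp⟩ := h2.sz_le
  obtain ⟨G, Ks, r, hG, hKs, hr, hG2⟩ := approx_S hA hlam hbc hW hsnd h2
    (p.comp (Polynomial.C 4 * Polynomial.X + 1)) (fun x => by
      have e1 := hp x
      have e2 := sz_listBool_ge (bits (F ((unbits α x).getD a0)))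
      have e3 := eval_mono p (sz_listBool_le x)
      rw [Polynomial.eval_comp]
      simp only [Polynomial.eval_add, Polynomial.eval_mul, Polynomial.eval_C, Polynomial.eval_X,
        Polynomial.eval_one]
      omega)
  refine ⟨fun q => (G (q.1, bits q.2)).map fun y => (unbits β y).getD b0,
    fun a => Ks (bits a), r, ?_, hKs.comp bits_poly, ?_, fun tb a h => ?_⟩
  · refine NPC.Poly.map (l := fun q : Tb × α => G (q.1, bits q.2))
      (F := fun _ y => (unbits β y).getD b0) ?_ ?_
    · have h3 : NPC.Poly (fun q : Tb × α => ((q.1, bits q.2) : Tb × List Bool)) :=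
        NPC.Poly.pair (NPC.Poly.fst NPC.Poly.id) (bits_poly.comp (NPC.Poly.snd NPC.Poly.id))
      have h4 := hG.comp h3
      exact h4
    · exact NPC.Poly.optGetD (poly_unbits.comp (NPC.Poly.snd NPC.Poly.id)) (NPC.Poly.const b0)
  · intro q
    rw [List.length_map]
    have h5 := hr (q.1, bits q.2)
    rw [bits_length] at h5
    exact h5
  · refine List.mem_map.2 ⟨_, hG2 tb (bits a) h, ?_⟩
    simp only [unbits_bits, Option.getD_some]

end Pool.Agent.TH762.NS
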