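import Pool.Agent.TH762.NS.Cand
import Pool.Agent.W920.LN.Main

/-!
# From candidate lists with tables to `NP = PSPACE`
-/

set_option autoImplicit false

namespace Pool.Agent.TH762.NS

open Pool.Agent.NPC Pool.Agent.H623R2.PS Pool.Agent.W920.LS
open Pool.Agent.H656R2.AK hiding gfin
open Pool.Agent.H579R2.Spt (prm prm_spec prm_poly exists_pow_bound)
open Pool.Agent.W901.AT (gen gen_lt gen_cast dig dig_mod gen_upoly)
open Pool.Agent.W920.LN

/-- **Candidate lists with tables of certificates put polynomial space into `NP`.** -/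
theorem inNP_of_cands {G : Tb × Ln → List ℕ} {Ks : Ln → List (List Bool)} {r0 rT : Polynomial ℕ}
    {vd : Tb → List Bool → Bool} (hG : NPC.Poly G) (hKs : NPC.Poly Ks)
    (hr0 : ∀ q, (G q).length ≤ r0.eval (sz q.2))
    (hG2 : ∀ tb a, (∀ z ∈ Ks a, vd tb z = true) → code a ∈ G (tb, a))
    (hvd0 : NPC.Poly (fun q : Tb × List Bool => vd q.1 q.2))
    (htab : ∀ (z : Ln) (Z : ℕ), sz z ≤ Z → ∃ tb : Tb, sz tb ≤ rT.eval Z ∧
      ∀ y ∈ Ks z, vd tb y = true)
    {L : Set (List Bool)} (hL : Pool.Agent.H623R2.PS.InPSPACE L) : InNP L := by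
  obtain ⟨f, hf, -, hf'⟩ := qbf_hard hL
  have hw : NPC.Poly (fun x => wr (f x)) := wr_poly.comp hf
  obtain ⟨pw, hpw⟩ := hw.sz_le
  set r : Polynomial ℕ := pw.comp (Polynomial.C 4 * Polynomial.X + 1) with hr
  have hrx : ∀ x : List Bool, sz (wr (f x)) ≤ r.eval x.length := by
    intro x
    refine (hpw x).trans ?_
    rw [hr, Polynomial.eval_comp]
    refine eval_mono pw ?_
    simpa using sz_listBool_le x
  set p3 : Polynomial ℕ := Polynomial.C 100 * Polynomial.X ^ 3 + 100 with hp3
  obtain ⟨e1, he1⟩ := exists_pow_bound ((r0.comp p3) ^ 2 * Polynomial.X)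
  set g : ℕ := e1 + 1 with hg
  set b : List Bool → ℕ := fun x => r.eval x.length + (g + 3) with hb
  have hbU : UPoly b := ((UPoly.length NPC.Poly.id).eval r).add (UPoly.const (g + 3))
  have hpowU : ∀ {u : List Bool → ℕ}, UPoly u → ∀ m : ℕ, UPoly (fun x => (u x) ^ m) := by
    intro u hu m
    induction m with
    | zero => simpa using UPoly.const 1
    | succ m ih => simpa only [pow_succ] using ih.mul hu
  have hpU : UPoly (fun x => prm ((b x) ^ g)) := prm_poly (hpowU hbU g)
  have hb0 : ∀ x, (b x) ^ g ≠ 0 := fun x => by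
    have h2 : 0 < b x := by simp only [hb]; omega
    positivity
  have hpu : NPC.Poly (fun x => List.replicate (prm ((b x) ^ g) - 1) ()) :=
    UPoly.of_le (NPC.Poly.sub hpU.toPoly (NPC.Poly.const 1)) hpU fun x => Nat.sub_le _ _
  have hvd : NPC.Poly (fun q : Tb × List Bool => vd q.1 q.2) := hvd0
  have hin : NPC.Poly (fun q : List Bool × List Tb =>
      (((List.replicate (prm ((b q.1) ^ g) - 1) (), wr (f q.1)), q.2) : Wn)) := by
    have e1 : NPC.Poly (fun q : List Bool × List Tb => q.1) := NPC.Poly.fst NPC.Poly.id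
    have h1 := hpu.comp e1
    have h2 := hw.comp e1
    exact NPC.Poly.pair (NPC.Poly.pair h1 h2) (NPC.Poly.snd NPC.Poly.id)
  have hV : NPC.Poly (fun q : List Bool × List Tb => verif G Ks vd
      ((List.replicate (prm ((b q.1) ^ g) - 1) (), wr (f q.1)), q.2)) := by
    have h := (verif_poly hG hKs hvd).comp hin
    exact h
  refine inNP_of hV ((r + Polynomial.C (g + 3)) *
    (rT.comp (p3.comp (r + Polynomial.C (g + 3))) + 1) + 1) fun x => ?_
  obtain ⟨hp, hpb1, hpb2⟩ := prm_spec (hb0 x)
  set p : ℕ := prm ((b x) ^ g) with hpdef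
  have hpl : (List.replicate (p - 1) ()).length + 1 = p := by
    rw [List.length_replicate]
    have := hp.pos
    omega
  have hbx := hrx x
  set n : ℕ := (f x).1.length with hn
  set C := (f x).2 with hC
  set ks : List Unit := (C.flatMap fun c => c.map fun _ => ()) ++ List.replicate 3 () with hks
  set ops : List Op := opsQ n 0 (f x).1 with hops
  have hwr : wr (f x) = (C, ks, ops, List.replicate n 0) := rfl
  have hbe : b x = r.eval x.length + (g + 3) := rfl
  rw [hwr, sz_pair, sz_pair, sz_pair] at hbx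
  have hgb : g + 1 ≤ b x := by omega
  have hb2 : 2 ≤ b x := by omega
  have hnb : n ≤ b x := by
    have h1 := length_lt_sz (List.replicate n (0 : ℕ))
    rw [List.length_replicate] at h1
    omega
  have hpsz : p < 2 ^ (b x * b x) := by
    have h1 : b x < 2 ^ b x := Nat.lt_two_pow_self
    have h2 : (b x) ^ g < (2 ^ b x) ^ g := Nat.pow_lt_pow_left h1 (by omega)
    have h3 : 2 * (2 ^ b x) ^ g ≤ 2 ^ (b x * b x) := by
      calc 2 * (2 ^ b x) ^ g = 2 ^ (b x * g + 1) := by rw [← pow_mul, pow_succ]; ring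
        _ ≤ 2 ^ (b x * b x) := Nat.pow_le_pow_right (by norm_num) (by
            have h4 : b x * (g + 1) ≤ b x * b x := Nat.mul_le_mul_left _ hgb
            have h5 : b x * (g + 1) = b x * g + b x := by ring
            omega)
    omega
  have hsp : ∀ y ≤ p, sz y ≤ 4 * (b x * b x) + 1 := by
    intro y hy
    have h1 := sz_nat_le y
    have h2 : y.size ≤ b x * b x := Nat.size_le.2 (lt_of_le_of_lt hy hpsz)
    omega
  have hzb : ∀ (ops' : List Op) (a : List ℕ) (j : ℕ), ops' <:+ ops → a.length = n →
      (∀ y ∈ a, y < p) → j < n → sz (((p, C, ops', a), (j, ks)) : Ln) ≤ p3.eval (b x) := by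
    intro ops' a j hs ha hap hj
    have s1 := hsp p le_rfl
    have s2 := sz_suffix hs
    have s3 := sz_le_length_mul a (4 * (b x * b x) + 1) (fun y hy => hsp y (hap y hy).le)
    rw [ha] at s3
    have s4 : n * (4 * (b x * b x) + 1 + 1) ≤ b x * (4 * (b x * b x) + 2) :=
      Nat.mul_le_mul_right _ hnb
    have s5 : sz j ≤ 4 * b x + 1 := (sz_nat_le j).trans (by
      have := NPC.Poly.size_le_self j; omega)
    rw [sz_pair, sz_pair, sz_pair, sz_pair, sz_pair, hp3]
    simp only [Polynomial.eval_add, Polynomial.eval_mul, Polynomial.eval_C, Polynomial.eval_X,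
      Polynomial.eval_pow, Polynomial.eval_ofNat]
    have h1 : 2 * b x ≤ b x * b x := Nat.mul_le_mul_right _ hb2
    have h1' : 2 * (b x * b x) ≤ b x * b x * b x := by
      have := Nat.mul_le_mul_left (b x * b x) hb2
      omega
    have h2 : b x ^ 3 = b x * b x * b x := by ring
    have h3 : b x * (4 * (b x * b x) + 2) = 4 * (b x * b x * b x) + 2 * b x := by ring
    rw [h2]
    omega
  have hcard : ∀ (tb : Tb) (ops' : List Op) (a : List ℕ) (j : ℕ), ops' <:+ ops → a.length = n →
      (∀ y ∈ a, y < p) → j < n →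
      (G (tb, ((p, C, ops', a), (j, ks)))).length ^ 2 * ks.length < p := by
    intro tb ops' a j hs ha hap hj
    have hz := hzb ops' a j hs ha hap hj
    have h3 := length_lt_sz ks
    have h4 : (G (tb, ((p, C, ops', a), (j, ks)))).length ≤ r0.eval (p3.eval (b x)) :=
      (hr0 (tb, ((p, C, ops', a), (j, ks)))).trans (eval_mono r0 hz)
    have h5 := he1 (b x) hb2
    rw [Polynomial.eval_mul, Polynomial.eval_pow, Polynomial.eval_comp, Polynomial.eval_X] at h5
    calc (G (tb, ((p, C, ops', a), (j, ks)))).length ^ 2 * ks.length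
        ≤ (r0.eval (p3.eval (b x))) ^ 2 * b x :=
          Nat.mul_le_mul (Nat.pow_le_pow_left h4 2) (by omega)
      _ ≤ (b x) ^ e1 := h5
      _ ≤ (b x) ^ g := Nat.pow_le_pow_right (by omega) (by omega)
      _ < p := hpb1
  have hK : max 2 (nlit C) < ks.length := by rw [hks, ks_length]; omega
  have hsm : Sm (nlit C) n ops := sm_opsQ _ _ _ _ (by omega)
  have ha0 : ∀ y ∈ List.replicate n 0, y < p := fun y hy => by
    rw [List.eq_of_mem_replicate hy]; exact hp.pos
  have hval : ∀ tbs : List Tb, verif G Ks vd ((List.replicate (p - 1) (), wr (f x)), tbs) =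
      (((gstep G Ks vd p C ks)^[ops.length]
        (ops, (List.replicate n 0, ([], (tbs, true))))).2.2.2.2 &&
      decide ((((gstep G Ks vd p C ks)^[ops.length]
        (ops, (List.replicate n 0, ([], (tbs, true))))).2.2.1).foldl (bstep p ks.length)
        (mvN p C ((gstep G Ks vd p C ks)^[ops.length]
        (ops, (List.replicate n 0, ([], (tbs, true))))).2.1) = 1)) := by
    intro tbs
    have h1 : gstepW G Ks vd ((List.replicate (p - 1) (), wr (f x)), tbs) =
        gstep G Ks vd p C ks := by
      funext s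
      change gstep G Ks vd ((List.replicate (p - 1) ()).length + 1) C ks s = _
      rw [hpl]
    unfold verif gfin
    rw [h1, hwr]
    simp only [ginit, hpl]
  have hsnd := fun tbs => run_sound (G := G) (Ks := Ks) (vd := vd) hG2 hp C ks hK n ops
    hcard ops (List.replicate n 0) [] tbs true List.suffix_rfl hsm (List.length_replicate ..) ha0
  rw [hf' x, ← evN_iff hp, ← hC, ← hn, ← hops]
  constructor
  · intro hev
    obtain ⟨tbs, h1, h2, h3⟩ := run_complete (G := G) (Ks := Ks) (vd := vd) hp C ks n ops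
      hcard (rT.eval (p3.eval (b x)))
      (fun ops' a j hs ha hap hj => htab _ _ (hzb ops' a j hs ha hap hj))
      ops (List.replicate n 0) [] true List.suffix_rfl hsm (List.length_replicate ..) ha0
    refine ⟨tbs, ?_, ?_⟩
    · refine (sz_le_length_mul tbs _ h2).trans ?_
      rw [h1]
      simp only [Polynomial.eval_add, Polynomial.eval_mul, Polynomial.eval_C,
        Polynomial.eval_one, Polynomial.eval_comp]
      have h4 := length_lt_sz ops
      have h5 : ops.length * (rT.eval (p3.eval (b x)) + 1) ≤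
          b x * (rT.eval (p3.eval (b x)) + 1) := Nat.mul_le_mul_right _ (by omega)
      exact Nat.add_le_add_right h5 1
    · have h4 := hval tbs
      simp only at h4 ⊢
      rw [h4, h3, Bool.true_and, decide_eq_true_eq]
      rw [(hsnd tbs h3).2]
      exact hev
  · rintro ⟨tbs, -, hv⟩
    have h4 := hval tbs
    simp only at h4 hv
    rw [h4, Bool.and_eq_true, decide_eq_true_eq] at hv
    obtain ⟨hv1, hv2⟩ := hv
    rw [(hsnd tbs hv1).2] at hv2
    exact hv2

end Pool.Agent.TH762.NS
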